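import Mathlib

/-!
# Operator valued convolutions on a finite cyclic group
-/

set_option autoImplicit false

open Finset
open scoped ComplexConjugate InnerProductSpace

namespace Pool.Agent.H848R3.PG

variable {E : Type*} [NormedAddCommGroup E] [InnerProductSpace ℂ E]

theorem parseval (N : ℕ) [NeZero N] (u : ZMod N → E) :
    ∑ k : ZMod N, ‖∑ j, ZMod.stdAddChar (j * k) • u j‖ ^ 2 = N * ∑ j, ‖u j‖ ^ 2 := by
  have h1 : ∀ v : E, ((‖v‖ ^ 2 : ℝ) : ℂ) = ⟪v, v⟫_ℂ := fun v => by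
    rw [inner_self_eq_norm_sq_to_K]; push_cast; rfl
  have h2 : (((∑ k : ZMod N, ‖∑ j, ZMod.stdAddChar (j * k) • u j‖ ^ 2 : ℝ)) : ℂ) =
      ((N * ∑ j, ‖u j‖ ^ 2 : ℝ) : ℂ) := by
    rw [Complex.ofReal_sum, Complex.ofReal_mul, Complex.ofReal_sum]
    simp_rw [h1, sum_inner, inner_sum, inner_smul_left, inner_smul_right]
    rw [Finset.sum_comm]
    have h3 : ∀ j : ZMod N, ∑ k : ZMod N, ∑ l, conj (ZMod.stdAddChar (j * k)) *
        (ZMod.stdAddChar (l * k) * ⟪u j, u l⟫_ℂ) = N * ⟪u j, u j⟫_ℂ := by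
      intro j
      rw [Finset.sum_comm]
      rw [Finset.sum_eq_single j]
      · have : ∀ k : ZMod N, conj (ZMod.stdAddChar (j * k)) * (ZMod.stdAddChar (j * k) * ⟪u j, u j⟫_ℂ)
            = ⟪u j, u j⟫_ℂ := by
          intro k
          rw [← mul_assoc, ← AddChar.map_neg_eq_conj, ← AddChar.map_add_eq_mul]
          simp
        simp_rw [this]
        rw [Finset.sum_const, Finset.card_univ, ZMod.card, nsmul_eq_mul]
      · intro l _ hl
        have : ∀ k : ZMod N, conj (ZMod.stdAddChar (j * k)) * (ZMod.stdAddChar (l * k) * ⟪u j, u l⟫_ℂ)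
            = ZMod.stdAddChar (k * (l - j)) * ⟪u j, u l⟫_ℂ := by
          intro k
          rw [← mul_assoc, ← AddChar.map_neg_eq_conj, ← AddChar.map_add_eq_mul]
          congr 2
          ring
        simp_rw [this]
        rw [← Finset.sum_mul, AddChar.sum_mulShift _ (ZMod.isPrimitive_stdAddChar N),
          if_neg (sub_ne_zero.2 hl)]
        simp
      · intro h; exact absurd (Finset.mem_univ _) h
    rw [Finset.sum_congr rfl fun j _ => h3 j, ← Finset.mul_sum]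
    simp
  exact_mod_cast h2

theorem dft_bound (N : ℕ) [NeZero N] (K : ZMod N → E →L[ℂ] E) (C : ℝ)
    (hK : ∀ (k : ZMod N) (x : E), ‖∑ d, ZMod.stdAddChar (d * k) • K d x‖ ≤ C * ‖x‖)
    (x : ZMod N → E) :
    ∑ j, ‖∑ i, K (j - i) (x i)‖ ^ 2 ≤ C ^ 2 * ∑ i, ‖x i‖ ^ 2 := by
  have hN : (0 : ℝ) < N := Nat.cast_pos.2 (NeZero.pos N)
  have h1 := parseval N fun j => ∑ i, K (j - i) (x i)
  have h2 := parseval N x
  have h3 : ∀ k : ZMod N, ∑ j, ZMod.stdAddChar (j * k) • ∑ i, K (j - i) (x i) =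
      ∑ d, ZMod.stdAddChar (d * k) • K d (∑ i, ZMod.stdAddChar (i * k) • x i) := by
    intro k
    have e1 : ∀ j, ZMod.stdAddChar (j * k) • ∑ i, K (j - i) (x i) =
        ∑ i, ZMod.stdAddChar (j * k) • K (j - i) (x i) := fun j => Finset.smul_sum
    have e2 : ∀ d, ZMod.stdAddChar (d * k) • K d (∑ i, ZMod.stdAddChar (i * k) • x i) =
        ∑ i, ZMod.stdAddChar (d * k) • ZMod.stdAddChar (i * k) • K d (x i) := fun d => by
      rw [map_sum, Finset.smul_sum]
      simp_rw [map_smul]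
    simp_rw [e1, e2]
    rw [Finset.sum_comm, Finset.sum_comm (s := (Finset.univ : Finset (ZMod N)))
      (t := (Finset.univ : Finset (ZMod N))) (f := fun d i => ZMod.stdAddChar (d * k) •
        ZMod.stdAddChar (i * k) • K d (x i))]
    refine Finset.sum_congr rfl fun i _ => ?_
    rw [← Equiv.sum_comp (Equiv.addRight i)]
    refine Finset.sum_congr rfl fun d _ => ?_
    simp only [Equiv.coe_addRight, add_sub_cancel_right, add_mul, AddChar.map_add_eq_mul, smul_smul]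
  have h4 : ∑ k : ZMod N, ‖∑ j, ZMod.stdAddChar (j * k) • ∑ i, K (j - i) (x i)‖ ^ 2 ≤
      ∑ k : ZMod N, C ^ 2 * ‖∑ i, ZMod.stdAddChar (i * k) • x i‖ ^ 2 := by
    refine Finset.sum_le_sum fun k _ => ?_
    rw [h3 k, ← mul_pow]
    exact pow_le_pow_left₀ (norm_nonneg _) (hK k _) 2
  rw [h1, ← Finset.mul_sum, h2] at h4
  have h5 : (N : ℝ) * ∑ j, ‖∑ i, K (j - i) (x i)‖ ^ 2 ≤ N * (C ^ 2 * ∑ i, ‖x i‖ ^ 2) := by
    calc _ ≤ _ := h4
      _ = _ := by ring
  exact le_of_mul_le_mul_left h5 hN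

end Pool.Agent.H848R3.PG
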