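import Pool.Agent.H848R3.PG.Defs
import Pool.Agent.H848R3.PG.Dft

/-!
# From convolutions to orbits

Let `S` be a semigroup and `V_h = R - S_h R`, where `R` commutes with `S`. If the sums
`∑ θ_d S_{dh} V_h` with `|θ_d| ≤ 1` are bounded by `C` then `‖S_{nh} V_h‖ ≤ C M² / m`, where
`m h = 1`, `n ≥ 2 m` and `M` bounds `S` on `[0, 1]`.
-/

set_option autoImplicit false

open Finset
open scoped ComplexConjugate InnerProductSpace

namespace Pool.Agent.H848R3.PG

variable {E : Type*} [NormedAddCommGroup E] [InnerProductSpace ℂ E]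

theorem sum_zmod {A : Type*} [AddCommMonoid A] (n : ℕ) (f : ZMod (n + 1) → A) :
    ∑ j, f j = ∑ j ∈ range (n + 1), f ((j : ℕ) : ZMod (n + 1)) := by
  have h := Fin.sum_univ_eq_sum_range (fun j : ℕ => f (j : ZMod (n + 1))) (n + 1)
  rw [← h]
  refine Finset.sum_congr rfl fun j _ => ?_
  congr 1
  exact (ZMod.natCast_zmod_val (n := n + 1) j).symm

theorem conv_bound (S : ℕ → E →L[ℂ] E) (V : E →L[ℂ] E) (C M : ℝ)
    (hadd : ∀ i j x, S (i + j) x = S i (S j x)) (hV : ∀ i x, V (S i x) = S i (V x))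
    (n m : ℕ) (hm : 0 < m) (hnm : 2 * m ≤ n) (hSM : ∀ i, i ≤ m → ∀ x, ‖S i x‖ ≤ M * ‖x‖)
    (hC : ∀ (θ : ℕ → ℂ), (∀ d, ‖θ d‖ ≤ 1) → ∀ x,
      ‖∑ d ∈ range (n + 1), θ d • S d (V x)‖ ≤ C * ‖x‖) (x : E) :
    ‖S n (V x)‖ * m ≤ |C| * M ^ 2 * ‖x‖ := by
  classical
  let K : ZMod (n + 1) → E →L[ℂ] E := fun d => (S d.val).comp V
  have hK : ∀ (k : ZMod (n + 1)) (y : E), ‖∑ d, ZMod.stdAddChar (d * k) • K d y‖ ≤ C * ‖y‖ := by
    intro k y
    rw [sum_zmod]
    have h1 := hC (fun d => ZMod.stdAddChar (((d : ℕ) : ZMod (n + 1)) * k)) (fun d => by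
      rw [AddChar.norm_apply]) y
    refine le_trans (le_of_eq ?_) h1
    congr 1
    refine Finset.sum_congr rfl fun d hd => ?_
    have hd' : d < n + 1 := Finset.mem_range.1 hd
    simp only [K, ContinuousLinearMap.comp_apply, ZMod.val_natCast_of_lt hd']
  let X : ZMod (n + 1) → E := fun i => if i.val < m then S i.val x else 0
  have hb := dft_bound (n + 1) K C hK X
  -- the right side
  have hX : ∑ i, ‖X i‖ ^ 2 ≤ m * (M * ‖x‖) ^ 2 := by
    rw [sum_zmod]
    have h1 : ∀ i ∈ range (n + 1), ‖X ((i : ℕ) : ZMod (n + 1))‖ ^ 2 ≤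
        if i < m then (M * ‖x‖) ^ 2 else 0 := by
      intro i hi
      have hi' : i < n + 1 := Finset.mem_range.1 hi
      simp only [X, ZMod.val_natCast_of_lt hi']
      split_ifs with h
      · exact pow_le_pow_left₀ (norm_nonneg _) (hSM i h.le x) 2
      · simp
    refine (Finset.sum_le_sum h1).trans ?_
    rw [← Finset.sum_filter, Finset.sum_const, nsmul_eq_mul]
    have h2 : (range (n + 1)).filter (fun i => i < m) = range m := by
      ext i; simp only [Finset.mem_filter, Finset.mem_range]; omega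
    rw [h2, Finset.card_range]
  -- the left side
  have hU : ∀ j, n - m < j → j ≤ n → ∑ i, K (((j : ℕ) : ZMod (n + 1)) - i) (X i) =
      (m : ℂ) • S j (V x) := by
    intro j hj1 hj2
    rw [sum_zmod]
    have h1 : ∀ i ∈ range (n + 1), K (((j : ℕ) : ZMod (n + 1)) - ((i : ℕ) : ZMod (n + 1)))
        (X ((i : ℕ) : ZMod (n + 1))) = if i < m then S j (V x) else 0 := by
      intro i hi
      have hi' : i < n + 1 := Finset.mem_range.1 hi
      simp only [X, K, ZMod.val_natCast_of_lt hi']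
      split_ifs with h
      · have hij : i ≤ j := by omega
        rw [← Nat.cast_sub hij]
        have : ((j - i : ℕ) : ZMod (n + 1)).val = j - i := ZMod.val_natCast_of_lt (by omega)
        rw [this]
        simp only [ContinuousLinearMap.comp_apply]
        rw [hV, ← hadd, Nat.sub_add_cancel hij]
      · simp
    rw [Finset.sum_congr rfl h1, ← Finset.sum_filter, Finset.sum_const]
    have h2 : (range (n + 1)).filter (fun i => i < m) = range m := by
      ext i; simp only [Finset.mem_filter, Finset.mem_range]; omega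
    rw [h2, Finset.card_range, Nat.cast_smul_eq_nsmul]
  have hL : (m : ℝ) * (m * ‖S n (V x)‖) ^ 2 ≤ M ^ 2 * ∑ j, ‖∑ i, K (j - i) (X i)‖ ^ 2 := by
    rw [sum_zmod, Finset.mul_sum]
    have h1 : ∀ j ∈ range (n + 1), (if n - m < j then ((m : ℝ) * ‖S n (V x)‖) ^ 2 else 0) ≤
        M ^ 2 * ‖∑ i, K (((j : ℕ) : ZMod (n + 1)) - i) (X i)‖ ^ 2 := by
      intro j hj
      have hj' : j < n + 1 := Finset.mem_range.1 hj
      split_ifs with h
      · rw [hU j h (by omega), ← mul_pow]
        refine pow_le_pow_left₀ (by positivity) ?_ 2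
        rw [norm_smul, Complex.norm_natCast]
        have h3 : S n (V x) = S (n - j) (S j (V x)) := by
          rw [← hadd, Nat.sub_add_cancel (by omega)]
        rw [h3]
        have h4 := hSM (n - j) (by omega) (S j (V x))
        calc (m : ℝ) * ‖S (n - j) (S j (V x))‖ ≤ m * (M * ‖S j (V x)‖) :=
              mul_le_mul_of_nonneg_left h4 (Nat.cast_nonneg _)
          _ = _ := by ring
      · positivity
    refine le_trans (le_of_eq ?_) (Finset.sum_le_sum h1)
    rw [← Finset.sum_filter, Finset.sum_const, nsmul_eq_mul]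
    have h2 : ((range (n + 1)).filter (fun i => n - m < i)).card = m := by
      have : (range (n + 1)).filter (fun i => n - m < i) = Finset.Ioc (n - m) n := by
        ext i; simp only [Finset.mem_filter, Finset.mem_range, Finset.mem_Ioc]; omega
      rw [this, Nat.card_Ioc]
      omega
    rw [h2]
  have hm' : (0 : ℝ) < m := Nat.cast_pos.2 hm
  have h5 : (m : ℝ) * (m * ‖S n (V x)‖) ^ 2 ≤ m * (|C| * M ^ 2 * ‖x‖) ^ 2 := by
    calc (m : ℝ) * (m * ‖S n (V x)‖) ^ 2 ≤ M ^ 2 * ∑ j, ‖∑ i, K (j - i) (X i)‖ ^ 2 := hL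
      _ ≤ M ^ 2 * (C ^ 2 * ∑ i, ‖X i‖ ^ 2) := mul_le_mul_of_nonneg_left hb (by positivity)
      _ ≤ M ^ 2 * (C ^ 2 * (m * (M * ‖x‖) ^ 2)) := by
          refine mul_le_mul_of_nonneg_left ?_ (by positivity)
          exact mul_le_mul_of_nonneg_left hX (by positivity)
      _ = m * (|C| * M ^ 2 * ‖x‖) ^ 2 := by rw [← sq_abs C]; ring
  have h6 := le_of_mul_le_mul_left h5 hm'
  have h7 := abs_le_of_sq_le_sq h6 (by positivity)
  rw [mul_comm]
  exact (le_abs_self _).trans h7

end Pool.Agent.H848R3.PG
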