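import Mathlib

/-!
# Strongly continuous semigroups: generator and resolvents
-/

set_option autoImplicit false

open Filter Topology Set MeasureTheory
open scoped ComplexConjugate

namespace Pool.Agent.H848R3.PG

section defs

variable {E : Type*} [NormedAddCommGroup E] [NormedSpace ℂ E]

/-- `(T_t)_{t ≥ 0}` is a strongly continuous semigroup (the values at negative times do not
matter). -/
structure IsC0Semigroup (T : ℝ → E →L[ℂ] E) : Prop where
  zero : T 0 = ContinuousLinearMap.id ℂ E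
  add : ∀ s t, 0 ≤ s → 0 ≤ t → T (s + t) = (T s).comp (T t)
  cont : ∀ x, ContinuousOn (fun t => T t x) (Ici 0)

/-- `A x = y` for the generator `A` of the semigroup. -/
def Gen (T : ℝ → E →L[ℂ] E) (x y : E) : Prop :=
  Tendsto (fun t : ℝ => ((t : ℂ))⁻¹ • (T t x - x)) (𝓝[>] 0) (𝓝 y)

/-- `R = (z - A)⁻¹` -/
def IsRes (T : ℝ → E →L[ℂ] E) (z : ℂ) (R : E →L[ℂ] E) : Prop :=
  (∀ x, Gen T (R x) (z • R x - x)) ∧ ∀ x y, Gen T x y → R (z • x - y) = x

/-- The spectrum of the generator. -/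
def spec (T : ℝ → E →L[ℂ] E) : Set ℂ := {z | ¬ ∃ R, IsRes T z R}

end defs

variable {E : Type*} [NormedAddCommGroup E] [NormedSpace ℂ E] {T : ℝ → E →L[ℂ] E}

theorem add_apply (hT : IsC0Semigroup T) {s t : ℝ} (hs : 0 ≤ s) (ht : 0 ≤ t) (x : E) :
    T (s + t) x = T s (T t x) := by
  rw [hT.add s t hs ht]; rfl

theorem zero_apply (hT : IsC0Semigroup T) (x : E) : T 0 x = x := by
  rw [hT.zero]; rfl

theorem comm_apply (hT : IsC0Semigroup T) {s t : ℝ} (hs : 0 ≤ s) (ht : 0 ≤ t) (x : E) :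
    T s (T t x) = T t (T s x) := by
  rw [← add_apply hT hs ht, ← add_apply hT ht hs, add_comm]

theorem loc_bound [CompleteSpace E] (hT : IsC0Semigroup T) (L : ℝ) :
    ∃ M : ℝ, 1 ≤ M ∧ ∀ t, 0 ≤ t → t ≤ L → ‖T t‖ ≤ M := by
  have h1 : ∀ x, ∃ C, ∀ t : Icc (0 : ℝ) L, ‖T t x‖ ≤ C := by
    intro x
    have hc : ContinuousOn (fun t => T t x) (Icc 0 L) := (hT.cont x).mono fun t ht => ht.1
    obtain ⟨C, hC⟩ := isCompact_Icc.exists_bound_of_continuousOn hc
    exact ⟨C, fun t => hC t t.2⟩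
  obtain ⟨C, hC⟩ := banach_steinhaus h1
  exact ⟨max 1 C, le_max_left _ _, fun t h0 h1 => (hC ⟨t, h0, h1⟩).trans (le_max_right _ _)⟩

theorem gen_shift (hT : IsC0Semigroup T) {x y : E} (h : Gen T x y) {t : ℝ} (ht : 0 ≤ t) :
    Gen T (T t x) (T t y) := by
  have h1 := ((T t).continuous.tendsto y).comp h
  refine h1.congr' ?_
  filter_upwards [self_mem_nhdsWithin] with s hs
  have hs' : (0 : ℝ) ≤ s := le_of_lt hs
  simp only [Function.comp_apply, map_smul, map_sub]
  rw [comm_apply hT ht hs']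

theorem hasDeriv_right (hT : IsC0Semigroup T) {x y : E} (h : Gen T x y) {r : ℝ} (hr : 0 ≤ r) :
    HasDerivWithinAt (fun s => T s x) (T r y) (Ioi r) r := by
  rw [hasDerivWithinAt_iff_tendsto_slope]
  have hsd : Ioi r \ {r} = Ioi r := by
    ext s; simp only [Set.mem_sdiff, mem_Ioi, mem_singleton_iff]
    exact ⟨fun h => h.1, fun h => ⟨h, ne_of_gt h⟩⟩
  rw [hsd]
  have hm : Tendsto (fun s : ℝ => s - r) (𝓝[>] r) (𝓝[>] 0) := by
    refine tendsto_nhdsWithin_iff.2 ⟨?_, ?_⟩
    · have : Tendsto (fun s : ℝ => s - r) (𝓝 r) (𝓝 (r - r)) :=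
        (continuous_id.sub continuous_const).tendsto r
      rw [sub_self] at this
      exact this.mono_left nhdsWithin_le_nhds
    · filter_upwards [self_mem_nhdsWithin] with s hs
      have hs' : r < s := hs
      show (0 : ℝ) < s - r
      linarith
  have h1 := ((T r).continuous.tendsto y).comp (h.comp hm)
  refine h1.congr' ?_
  filter_upwards [self_mem_nhdsWithin] with s hs
  have hs' : r < s := hs
  have hs'' : (0 : ℝ) ≤ s - r := by linarith
  simp only [Function.comp_apply, slope, vsub_eq_sub, map_smul, map_sub]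
  rw [← add_apply hT hr hs'', show r + (s - r) = s by ring]
  rw [← Complex.ofReal_inv, Complex.coe_smul]

theorem ftc_gen (hT : IsC0Semigroup T) [CompleteSpace E] {x y : E} (h : Gen T x y) (z : ℂ) {L : ℝ}
    (hL : 0 ≤ L) :
    ∫ r in (0 : ℝ)..L, Complex.exp (-z * r) • T r (z • x - y) = x - Complex.exp (-z * L) • T L x := by
  have hexp : ∀ r : ℝ, HasDerivAt (fun r : ℝ => Complex.exp (-z * r)) (-z * Complex.exp (-z * r)) r := by
    intro r
    have h1 : HasDerivAt (fun r : ℝ => -z * (r : ℂ)) (-z) r := by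
      simpa using (Complex.ofRealCLM.hasDerivAt (x := r)).const_mul (-z)
    have h2 := h1.cexp
    convert h2 using 1
    ring
  have hcexp : Continuous (fun r : ℝ => Complex.exp (-z * r)) := by fun_prop
  have huI : uIcc (0 : ℝ) L ⊆ Ici 0 := by
    rw [uIcc_of_le hL]; exact fun t ht => ht.1
  have hcont : ContinuousOn (fun r : ℝ => -(Complex.exp (-z * r) • T r x)) (uIcc 0 L) :=
    ((hcexp.continuousOn.smul (hT.cont x)).neg).mono huI
  have hcont' : ContinuousOn (fun r : ℝ => Complex.exp (-z * r) • T r (z • x - y)) (uIcc 0 L) :=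
    (hcexp.continuousOn.smul (hT.cont _)).mono huI
  have key := intervalIntegral.integral_eq_sub_of_hasDeriv_right hcont
    (f' := fun r : ℝ => Complex.exp (-z * r) • T r (z • x - y)) (fun r hr => ?_)
    hcont'.intervalIntegrable
  · rw [key, zero_apply hT]
    simp only [Complex.ofReal_zero, mul_zero, Complex.exp_zero, one_smul]
    abel
  · have hr0 : 0 ≤ r := by
      rw [min_eq_left hL] at hr
      exact hr.1.le
    have h1 := ((hexp r).hasDerivWithinAt (s := Ioi r)).smul (hasDeriv_right hT h hr0)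
    refine h1.neg.congr_deriv ?_
    rw [map_sub, map_smul]
    module

theorem res_comm (hT : IsC0Semigroup T) {z : ℂ} {R : E →L[ℂ] E} (hR : IsRes T z R) {t : ℝ}
    (ht : 0 ≤ t) (x : E) : R (T t x) = T t (R x) := by
  have h1 := gen_shift hT (hR.1 x) ht
  have h2 := hR.2 _ _ h1
  rw [← map_smul, ← map_sub] at h2
  rw [← h2]
  congr 2
  abel

theorem ftc_res (hT : IsC0Semigroup T) [CompleteSpace E] {z : ℂ} {R : E →L[ℂ] E} (hR : IsRes T z R)
    (x : E) {L : ℝ} (hL : 0 ≤ L) :
    ∫ r in (0 : ℝ)..L, Complex.exp (-z * r) • T r x = R x - Complex.exp (-z * L) • T L (R x) := by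
  have := ftc_gen hT (hR.1 x) z hL
  rw [← this]
  congr 1
  ext r
  congr 2
  abel

theorem res_identity {z w : ℂ} {R S : E →L[ℂ] E} (hR : IsRes T z R) (hS : IsRes T w S) (x : E) :
    S x = R x + (z - w) • S (R x) := by
  have h := hS.2 _ _ (hR.1 x)
  have h2 : w • R x - (z • R x - x) = x - (z - w) • R x := by module
  rw [h2, map_sub, map_smul] at h
  exact sub_eq_iff_eq_add.1 h

end Pool.Agent.H848R3.PG
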