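import Pool.Agent.H848R3.PG.Defs

/-!
# The resolvent as a Laplace transform
-/

set_option autoImplicit false

open Filter Topology Set MeasureTheory
open scoped ComplexConjugate

namespace Pool.Agent.H848R3.PG

variable {E : Type*} [NormedAddCommGroup E] [NormedSpace ℂ E] {T : ℝ → E →L[ℂ] E}

theorem norm_f_le {M ω : ℝ} (hM : ∀ t, 0 ≤ t → ‖T t‖ ≤ M * Real.exp (ω * t)) (z : ℂ) (x : E) {r : ℝ}
    (hr : 0 ≤ r) :
    ‖Complex.exp (-z * r) • T r x‖ ≤ (M * Real.exp (-(z.re - ω) * r)) * ‖x‖ := by
  rw [norm_smul, Complex.norm_exp]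
  have h1 : (-z * (r : ℂ)).re = -z.re * r := by simp
  rw [h1]
  calc Real.exp (-z.re * r) * ‖T r x‖ ≤ Real.exp (-z.re * r) * ((M * Real.exp (ω * r)) * ‖x‖) := by
        refine mul_le_mul_of_nonneg_left ?_ (Real.exp_pos _).le
        exact ((T r).le_opNorm x).trans (mul_le_mul_of_nonneg_right (hM r hr) (norm_nonneg _))
    _ = (M * (Real.exp (-z.re * r) * Real.exp (ω * r))) * ‖x‖ := by ring
    _ = _ := by rw [← Real.exp_add]; congr 3; ring

theorem integrable_f [CompleteSpace E] (hT : IsC0Semigroup T) {M ω : ℝ}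
    (hM : ∀ t, 0 ≤ t → ‖T t‖ ≤ M * Real.exp (ω * t)) {z : ℂ} (hz : ω < z.re) (x : E) :
    IntegrableOn (fun r : ℝ => Complex.exp (-z * r) • T r x) (Ioi 0) := by
  have hcexp : Continuous (fun r : ℝ => Complex.exp (-z * r)) := by fun_prop
  have hmeas : AEStronglyMeasurable (fun r : ℝ => Complex.exp (-z * r) • T r x)
      (volume.restrict (Ioi 0)) :=
    ((hcexp.continuousOn.smul (hT.cont x)).mono Ioi_subset_Ici_self).aestronglyMeasurable
      measurableSet_Ioi
  have hint : IntegrableOn (fun r : ℝ => (M * Real.exp (-(z.re - ω) * r)) * ‖x‖) (Ioi 0) :=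
    ((exp_neg_integrableOn_Ioi 0 (sub_pos.2 hz)).const_mul M).mul_const _
  refine Integrable.mono' hint hmeas ?_
  filter_upwards [ae_restrict_mem measurableSet_Ioi] with r hr
  exact norm_f_le hM z x (le_of_lt hr)

theorem tendsto_zero {M ω : ℝ} (hM : ∀ t, 0 ≤ t → ‖T t‖ ≤ M * Real.exp (ω * t)) {z : ℂ}
    (hz : ω < z.re) (x : E) :
    Tendsto (fun L : ℝ => Complex.exp (-z * L) • T L x) atTop (𝓝 0) := by
  have h1 : Tendsto (fun L : ℝ => (M * Real.exp (-(z.re - ω) * L)) * ‖x‖) atTop (𝓝 0) := by
    have h2 : Tendsto (fun L : ℝ => Real.exp (-(z.re - ω) * L)) atTop (𝓝 0) := by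
      refine Real.tendsto_exp_atBot.comp ?_
      exact (tendsto_const_mul_atBot_of_neg (by linarith)).2 tendsto_id
    simpa using (h2.const_mul M).mul_const ‖x‖
  refine squeeze_zero_norm' ?_ h1
  filter_upwards [eventually_ge_atTop 0] with L hL
  exact norm_f_le hM z x hL

theorem exists_res [CompleteSpace E] (hT : IsC0Semigroup T) {M ω : ℝ}
    (hM : ∀ t, 0 ≤ t → ‖T t‖ ≤ M * Real.exp (ω * t)) {z : ℂ} (hz : ω < z.re) :
    ∃ R, IsRes T z R := by
  have hI := fun x => integrable_f hT hM hz x
  let R : E →L[ℂ] E := LinearMap.mkContinuous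
    { toFun := fun x => ∫ r in Ioi (0 : ℝ), Complex.exp (-z * r) • T r x
      map_add' := fun x y => by
        rw [← integral_add (hI x) (hI y)]
        congr 1; ext r; rw [map_add, smul_add]
      map_smul' := fun c x => by
        simp only [RingHom.id_apply]
        rw [← integral_smul]
        congr 1; ext r; rw [map_smul, smul_comm] }
    (∫ r in Ioi (0 : ℝ), M * Real.exp (-(z.re - ω) * r)) (fun x => by
      simp only [LinearMap.coe_mk, AddHom.coe_mk]
      rw [← integral_mul_const]
      refine norm_integral_le_of_norm_le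
        (((exp_neg_integrableOn_Ioi 0 (sub_pos.2 hz)).const_mul M).mul_const _) ?_
      filter_upwards [ae_restrict_mem measurableSet_Ioi] with r hr
      exact norm_f_le hM z x (le_of_lt hr))
  have hRapp : ∀ x, R x = ∫ r in Ioi (0 : ℝ), Complex.exp (-z * r) • T r x := fun x => rfl
  have hlim : ∀ x, Tendsto (fun L : ℝ => ∫ r in (0 : ℝ)..L, Complex.exp (-z * r) • T r x) atTop
      (𝓝 (R x)) := fun x => by
    rw [hRapp]
    exact intervalIntegral_tendsto_integral_Ioi 0 (hI x) tendsto_id
  have hcexp : Continuous (fun r : ℝ => Complex.exp (-z * r)) := by fun_prop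
  have hcf : ∀ x, ContinuousOn (fun r : ℝ => Complex.exp (-z * r) • T r x) (Ici 0) := fun x =>
    hcexp.continuousOn.smul (hT.cont x)
  have hii : ∀ x (a b : ℝ), 0 ≤ a → 0 ≤ b → IntervalIntegrable
      (fun r : ℝ => Complex.exp (-z * r) • T r x) volume a b := fun x a b ha hb => by
    refine ContinuousOn.intervalIntegrable ((hcf x).mono ?_)
    intro t ht
    rw [mem_uIcc] at ht
    rcases ht with ht | ht
    · exact ha.trans ht.1
    · exact hb.trans ht.1
  refine ⟨R, fun x => ?_, fun x y hxy => ?_⟩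
  · -- the range of `R`
    have hTh : ∀ h : ℝ, 0 ≤ h → T h (R x) =
        Complex.exp (z * h) • (R x - ∫ r in (0 : ℝ)..h, Complex.exp (-z * r) • T r x) := by
      intro h hh
      have l1 : Tendsto (fun L : ℝ => T h (∫ r in (0 : ℝ)..L, Complex.exp (-z * r) • T r x)) atTop
          (𝓝 (T h (R x))) := ((T h).continuous.tendsto _).comp (hlim x)
      have l2 : Tendsto (fun L : ℝ => Complex.exp (z * h) •
          ((∫ r in (0 : ℝ)..(L + h), Complex.exp (-z * r) • T r x) -
            ∫ r in (0 : ℝ)..h, Complex.exp (-z * r) • T r x)) atTop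
          (𝓝 (Complex.exp (z * h) • (R x - ∫ r in (0 : ℝ)..h, Complex.exp (-z * r) • T r x))) := by
        refine Tendsto.const_smul (Tendsto.sub_const ?_ _) _
        exact (hlim x).comp (tendsto_atTop_add_const_right _ _ tendsto_id)
      refine tendsto_nhds_unique (l1.congr' ?_) l2
      filter_upwards [eventually_ge_atTop 0] with L hL
      rw [← ContinuousLinearMap.intervalIntegral_comp_comm _ (hii x 0 L le_rfl hL)]
      rw [intervalIntegral.integral_interval_sub_left (hii x 0 (L + h) le_rfl (by linarith))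
        (hii x 0 h le_rfl hh)]
      have e1 : ∫ r in h..(L + h), Complex.exp (-z * r) • T r x =
          ∫ r in (0 : ℝ)..L, Complex.exp (-z * ((r + h : ℝ) : ℂ)) • T (r + h) x := by
        rw [intervalIntegral.integral_comp_add_right (fun r : ℝ => Complex.exp (-z * r) • T r x) h]
        rw [zero_add]
      rw [e1, ← intervalIntegral.integral_smul]
      refine intervalIntegral.integral_congr fun r hr => ?_
      rw [uIcc_of_le hL] at hr
      simp only [map_smul]
      rw [add_comm r h, add_apply hT hh hr.1, smul_smul, ← Complex.exp_add]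
      congr 2
      push_cast
      ring
    have d1 : Tendsto (fun h : ℝ => ((h : ℂ))⁻¹ * (Complex.exp (z * h) - 1)) (𝓝[>] 0) (𝓝 z) := by
      have h1 : HasDerivAt (fun r : ℝ => Complex.exp (z * r)) z 0 := by
        have h1 : HasDerivAt (fun r : ℝ => z * (r : ℂ)) z 0 := by
          simpa using (Complex.ofRealCLM.hasDerivAt (x := (0 : ℝ))).const_mul z
        have h2 := h1.cexp
        simpa using h2
      have h2 := (hasDerivAt_iff_tendsto_slope.1 h1).mono_left
        (nhdsWithin_mono 0 (fun s (hs : (0 : ℝ) < s) => (ne_of_gt hs : s ≠ 0)))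
      refine h2.congr fun h => ?_
      simp [slope]
    have d2 : Tendsto (fun h : ℝ => ((h : ℂ))⁻¹ • ∫ r in (0 : ℝ)..h, Complex.exp (-z * r) • T r x)
        (𝓝[>] 0) (𝓝 x) := by
      have h1 : HasDerivWithinAt (fun u => ∫ r in (0 : ℝ)..u, Complex.exp (-z * r) • T r x)
          (Complex.exp (-z * (0 : ℝ)) • T 0 x) (Ici 0) 0 := by
        refine intervalIntegral.integral_hasDerivWithinAt_right (s := Ici 0) (t := Ioi 0)
          (hii x 0 0 le_rfl le_rfl) ?_ ?_
        · exact ⟨Ioi 0, self_mem_nhdsWithin, ((hcf x).mono Ioi_subset_Ici_self).aestronglyMeasurable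
            measurableSet_Ioi⟩
        · exact ((hcf x) 0 (mem_Ici.2 le_rfl)).mono Ioi_subset_Ici_self
      have h2 := hasDerivWithinAt_iff_tendsto_slope.1 h1
      have hsd : Ici (0 : ℝ) \ {0} = Ioi 0 := by
        ext s; simp only [Set.mem_sdiff, mem_Ici, mem_singleton_iff, mem_Ioi]
        exact ⟨fun h => lt_of_le_of_ne h.1 (Ne.symm h.2), fun h => ⟨h.le, ne_of_gt h⟩⟩
      rw [hsd] at h2
      rw [zero_apply hT] at h2
      simp only [Complex.ofReal_zero, mul_zero, Complex.exp_zero, one_smul] at h2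
      refine h2.congr fun h => ?_
      simp only [slope, vsub_eq_sub, sub_zero, intervalIntegral.integral_same]
      rw [← Complex.ofReal_inv, Complex.coe_smul]
    have d3 : Tendsto (fun h : ℝ => Complex.exp (z * h)) (𝓝[>] 0) (𝓝 1) := by
      have : Continuous (fun r : ℝ => Complex.exp (z * r)) := by fun_prop
      have h2 := this.tendsto 0
      simp only [Complex.ofReal_zero, mul_zero, Complex.exp_zero] at h2
      exact h2.mono_left nhdsWithin_le_nhds
    have d4 := (d1.smul_const (R x)).sub (d3.smul d2)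
    rw [one_smul] at d4
    refine d4.congr' ?_
    filter_upwards [self_mem_nhdsWithin] with h hh
    rw [hTh h (le_of_lt hh)]
    module
  · have l1 := hlim (z • x - y)
    have l2 : Tendsto (fun L : ℝ => x - Complex.exp (-z * L) • T L x) atTop (𝓝 (x - 0)) :=
      tendsto_const_nhds.sub (tendsto_zero hM hz x)
    rw [sub_zero] at l2
    refine tendsto_nhds_unique (l1.congr' ?_) l2
    filter_upwards [eventually_ge_atTop 0] with L hL
    exact ftc_gen hT hxy z hL

end Pool.Agent.H848R3.PG
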