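import Pool.Agent.H848R3.PG.Pos

/-!
# Positive semigroups on ordered Hilbert spaces: growth from the real resolvent set
-/

set_option autoImplicit false

open Filter Topology Set MeasureTheory
open scoped ComplexConjugate

namespace Pool.Agent.H848R3.PG

section nat

variable {E : Type*} [NormedAddCommGroup E] [NormedSpace ℂ E] {T : ℝ → E →L[ℂ] E}

/-- exponential bounds at integer times give exponential bounds -/
theorem growth_of_nat [CompleteSpace E] (hT : IsC0Semigroup T) {A b : ℝ}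
    (h : ∀ n : ℕ, ‖T n‖ ≤ A * Real.exp (b * n)) :
    ∃ M : ℝ, ∀ t, 0 ≤ t → ‖T t‖ ≤ M * Real.exp (b * t) := by
  obtain ⟨M, hM1, hM⟩ := loc_bound hT 1
  have hA : 0 ≤ A := by
    have := (norm_nonneg _).trans (h 0)
    simpa using this
  refine ⟨M * A * Real.exp |b|, fun t ht => ?_⟩
  set n : ℕ := ⌊t⌋₊ with hn
  have h1 : (n : ℝ) ≤ t := Nat.floor_le ht
  have h2 : t < n + 1 := Nat.lt_floor_add_one t
  have h3 : T t = (T (t - n)).comp (T n) := by
    rw [← hT.add _ _ (by linarith) (Nat.cast_nonneg n)]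
    congr 1; ring
  rw [h3]
  have h4 : b * n ≤ |b| + b * t := by
    have h5 : b * (n - t) ≤ |b| := by
      calc b * (n - t) ≤ |b * (n - t)| := le_abs_self _
        _ = |b| * |n - t| := abs_mul _ _
        _ ≤ |b| * 1 := by
          refine mul_le_mul_of_nonneg_left ?_ (abs_nonneg _)
          rw [abs_le]; constructor <;> linarith
        _ = |b| := mul_one _
    linarith
  calc ‖(T (t - n)).comp (T n)‖ ≤ ‖T (t - n)‖ * ‖T n‖ := ContinuousLinearMap.opNorm_comp_le _ _
    _ ≤ M * (A * Real.exp (b * n)) :=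
        mul_le_mul (hM _ (by linarith) (by linarith)) (h n) (norm_nonneg _) (by linarith)
    _ ≤ M * (A * Real.exp (|b| + b * t)) := by
        refine mul_le_mul_of_nonneg_left ?_ (by linarith)
        exact mul_le_mul_of_nonneg_left (Real.exp_le_exp.2 h4) hA
    _ = _ := by rw [Real.exp_add]; ring

theorem exists_growth [CompleteSpace E] (hT : IsC0Semigroup T) :
    ∃ M ω : ℝ, ∀ t, 0 ≤ t → ‖T t‖ ≤ M * Real.exp (ω * t) := by
  obtain ⟨M, hM1, hM⟩ := loc_bound hT 1
  have hM0 : 0 < M := by linarith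
  have h : ∀ n : ℕ, ‖T n‖ ≤ 1 * Real.exp (Real.log M * n) := by
    intro n
    induction n with
    | zero =>
      simp only [CharP.cast_eq_zero, mul_zero, Real.exp_zero, mul_one, hT.zero]
      exact ContinuousLinearMap.norm_id_le
    | succ n ih =>
      have h3 : T ((n + 1 : ℕ) : ℝ) = (T 1).comp (T n) := by
        rw [← hT.add _ _ zero_le_one (Nat.cast_nonneg n)]
        congr 1; push_cast; ring
      rw [h3]
      calc ‖(T 1).comp (T n)‖ ≤ ‖T 1‖ * ‖T n‖ := ContinuousLinearMap.opNorm_comp_le _ _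
        _ ≤ M * (1 * Real.exp (Real.log M * n)) :=
            mul_le_mul (hM 1 zero_le_one le_rfl) ih (norm_nonneg _) hM0.le
        _ = _ := by
            push_cast
            rw [mul_add, Real.exp_add, mul_one, Real.exp_log hM0]; ring
  obtain ⟨M', hM'⟩ := growth_of_nat hT h
  exact ⟨M', _, hM'⟩

end nat

variable {E : Type*} [NormedAddCommGroup E] [InnerProductSpace ℂ E] [CompleteSpace E]
  {C : Set E} {T : ℝ → E →L[ℂ] E}

theorem growth (hC : OrdCone C) (hT : IsC0Semigroup T) (hpos : ∀ t, 0 ≤ t → Pos C (T t)) (b : ℝ)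
    (hres : ∀ l : ℝ, b ≤ l → ∃ R, IsRes T l R) :
    ∃ M : ℝ, ∀ t, 0 ≤ t → ‖T t‖ ≤ M * Real.exp (b * t) := by
  obtain ⟨M0, ω, hM0⟩ := exists_growth hT
  -- positivity of the resolvent at `b`
  obtain ⟨R, hR⟩ := hres b le_rfl
  have hRpos : Pos C R := by
    refine pos_down hC (le_max_left b (ω + 1)) hres (fun R' hR' => ?_) R hR
    exact res_pos_large hC hT hpos hM0 (lt_of_lt_of_le (by linarith) (le_max_right b (ω + 1))) hR'
  -- the rescaled semigroup
  let S : ℝ → E →L[ℂ] E := fun t => ((Real.exp (-b * t) : ℝ) : ℂ) • T t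
  have hSapp : ∀ t x, S t x = ((Real.exp (-b * t) : ℝ) : ℂ) • T t x := fun t x => rfl
  have hSadd : ∀ s t, 0 ≤ s → 0 ≤ t → ∀ x, S (s + t) x = S s (S t x) := by
    intro s t hs ht x
    rw [hSapp, hSapp, hSapp, map_smul, smul_smul, add_apply hT hs ht, ← Complex.ofReal_mul,
      ← Real.exp_add]
    congr 3
    ring
  have hSpos : ∀ t, 0 ≤ t → Pos C (S t) := fun t ht x hx =>
    hC.smul _ (Real.exp_pos _).le _ (hpos t ht x hx)
  have hSR : ∀ t, 0 ≤ t → ∀ x, R (S t x) = S t (R x) := fun t ht x => by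
    rw [hSapp, hSapp, map_smul, res_comm hT hR ht]
  -- the family of operators
  let V : ℝ → E →L[ℂ] E := fun h => R - (S h).comp R
  have hVapp : ∀ h x, V h x = R x - S h (R x) := fun h x => rfl
  have hVpos : ∀ h, 0 ≤ h → Pos C (V h) := fun h hh x hx => V_mem hC hT hpos hR hh hx
  have htel : ∀ h, 0 ≤ h → ∀ (N : ℕ) x, ∑ d ∈ Finset.range N, S (d * h) (V h x) =
      R x - S (N * h) (R x) := by
    intro h hh N x
    have h1 : ∀ d : ℕ, S (d * h) (V h x) = S (d * h) (R x) - S ((d + 1 : ℕ) * h) (R x) := by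
      intro d
      rw [hVapp, map_sub, ← hSadd _ _ (by positivity) hh]
      congr 3
      push_cast; ring
    simp_rw [h1]
    rw [Finset.sum_range_sub']
    congr 1
    simp only [CharP.cast_eq_zero, zero_mul]
    rw [hSapp, zero_apply hT]; simp
  obtain ⟨c, hc0, hc⟩ := hC.normal
  have hreal : ∀ (h : ℝ), 0 ≤ h → ∀ (N : ℕ) (θ : ℕ → ℝ), (∀ d, |θ d| ≤ 1) → ∀ x ∈ C,
      ‖∑ d ∈ Finset.range N, ((θ d : ℝ) : ℂ) • S (d * h) (V h x)‖ ≤ (2 * c + 1) * ‖R x‖ := by
    intro h hh N θ hθ x hx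
    set u := ∑ d ∈ Finset.range N, ((θ d : ℝ) : ℂ) • S (d * h) (V h x) with hu
    have hmem : ∀ σ : ℝ, |σ| ≤ 1 → R x + (σ : ℂ) • u ∈ C := by
      intro σ hσ
      have h1 : R x + (σ : ℂ) • u = S (N * h) (R x) + ∑ d ∈ Finset.range N,
          ((1 + σ * θ d : ℝ) : ℂ) • S (d * h) (V h x) := by
        have h2 : R x = S (N * h) (R x) + ∑ d ∈ Finset.range N, S (d * h) (V h x) := by
          rw [htel h hh]; abel
        nth_rewrite 1 [h2]
        rw [hu, Finset.smul_sum, add_assoc, ← Finset.sum_add_distrib]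
        congr 1
        refine Finset.sum_congr rfl fun d _ => ?_
        push_cast
        module
      rw [h1]
      refine hC.add _ (hSpos _ (by positivity) _ (hRpos x hx)) _ (hC.sum_mem _ _ fun d _ => ?_)
      refine hC.smul _ ?_ _ (hSpos _ (by positivity) _ (hVpos h hh x hx))
      have h3 : |σ * θ d| ≤ 1 := by
        rw [abs_mul]
        exact mul_le_one₀ hσ (abs_nonneg _) (hθ d)
      linarith [neg_le_of_abs_le h3]
    have h1 := hmem 1 (by simp)
    have h2 := hmem (-1) (by simp)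
    simp only [Complex.ofReal_one, one_smul, Complex.ofReal_neg, neg_smul] at h1 h2
    have h3 := hc _ h1 ((2 : ℂ) • R x) (by
      have : (2 : ℂ) • R x - (R x + u) = R x + -u := by module
      rw [this]; exact h2)
    rw [norm_smul, Complex.norm_ofNat] at h3
    calc ‖u‖ = ‖(R x + u) - R x‖ := by congr 1; abel
      _ ≤ ‖R x + u‖ + ‖R x‖ := norm_sub_le _ _
      _ ≤ c * (2 * ‖R x‖) + ‖R x‖ := add_le_add h3 le_rfl
      _ = _ := by ring
  have hcpx : ∀ (h : ℝ), 0 ≤ h → ∀ (N : ℕ) (θ : ℕ → ℂ), (∀ d, ‖θ d‖ ≤ 1) → ∀ x ∈ C,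
      ‖∑ d ∈ Finset.range N, θ d • S (d * h) (V h x)‖ ≤ 2 * ((2 * c + 1) * ‖R x‖) := by
    intro h hh N θ hθ x hx
    have h1 := hreal h hh N (fun d => (θ d).re) (fun d => (Complex.abs_re_le_norm _).trans (hθ d)) x hx
    have h2 := hreal h hh N (fun d => (θ d).im) (fun d => (Complex.abs_im_le_norm _).trans (hθ d)) x hx
    have h3 : ∑ d ∈ Finset.range N, θ d • S (d * h) (V h x) =
        (∑ d ∈ Finset.range N, (((θ d).re : ℝ) : ℂ) • S (d * h) (V h x)) +
        Complex.I • ∑ d ∈ Finset.range N, (((θ d).im : ℝ) : ℂ) • S (d * h) (V h x) := by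
      rw [Finset.smul_sum, ← Finset.sum_add_distrib]
      refine Finset.sum_congr rfl fun d _ => ?_
      nth_rewrite 1 [← Complex.re_add_im (θ d)]
      rw [add_smul, smul_smul]
      congr 2
      ring
    rw [h3]
    refine (norm_add_le _ _).trans ?_
    rw [norm_smul, Complex.norm_I, one_mul]
    linarith
  -- uniform boundedness
  let ι := {p : ℝ × ℕ × (ℕ → ℂ) // 0 ≤ p.1 ∧ ∀ d, ‖p.2.2 d‖ ≤ 1}
  let g : ι → E →L[ℂ] E := fun p =>
    ∑ d ∈ Finset.range p.1.2.1, p.1.2.2 d • (S (d * p.1.1)).comp (V p.1.1)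
  have hg : ∀ (p : ι) x, g p x = ∑ d ∈ Finset.range p.1.2.1, p.1.2.2 d • S (d * p.1.1) (V p.1.1 x) := by
    intro p x
    simp only [g, _root_.sum_apply, _root_.smul_apply,
      ContinuousLinearMap.comp_apply]
  obtain ⟨C0, hC0⟩ := banach_steinhaus (g := g) (fun x => by
    obtain ⟨p, hp, q, hq, r, hr, s, hs, hx⟩ := hC.gen x
    refine ⟨2 * ((2 * c + 1) * ‖R p‖) + 2 * ((2 * c + 1) * ‖R q‖) + (2 * ((2 * c + 1) * ‖R r‖) +
      2 * ((2 * c + 1) * ‖R s‖)), fun i => ?_⟩
    have hb : ∀ y ∈ C, ‖g i y‖ ≤ 2 * ((2 * c + 1) * ‖R y‖) := fun y hy => by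
      rw [hg]
      exact hcpx _ i.2.1 _ _ i.2.2 y hy
    rw [hx, map_add, map_smul, map_sub, map_sub]
    refine (norm_add_le _ _).trans (add_le_add ?_ ?_)
    · exact (norm_sub_le _ _).trans (add_le_add (hb p hp) (hb q hq))
    · rw [norm_smul, Complex.norm_I, one_mul]
      exact (norm_sub_le _ _).trans (add_le_add (hb r hr) (hb s hs)))
  -- local bound of `S`
  obtain ⟨M1, hM11, hM1⟩ := loc_bound hT 1
  let M : ℝ := Real.exp |b| * M1
  have hSM : ∀ t, 0 ≤ t → t ≤ 1 → ∀ x, ‖S t x‖ ≤ M * ‖x‖ := by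
    intro t ht ht1 x
    rw [hSapp, norm_smul, Complex.norm_real, Real.norm_of_nonneg (Real.exp_pos _).le]
    have h1 : Real.exp (-b * t) ≤ Real.exp |b| := by
      refine Real.exp_le_exp.2 ?_
      calc -b * t ≤ |(-b) * t| := le_abs_self _
        _ = |b| * |t| := by rw [abs_mul, abs_neg]
        _ ≤ |b| * 1 := mul_le_mul_of_nonneg_left (by rw [abs_of_nonneg ht]; exact ht1) (abs_nonneg _)
        _ = |b| := mul_one _
    calc Real.exp (-b * t) * ‖T t x‖ ≤ Real.exp |b| * (M1 * ‖x‖) :=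
          mul_le_mul h1 (((T t).le_opNorm x).trans
            (mul_le_mul_of_nonneg_right (hM1 t ht ht1) (norm_nonneg _))) (norm_nonneg _)
            (Real.exp_pos _).le
      _ = M * ‖x‖ := by simp only [M]; ring
  -- the limit
  have hVlim : ∀ x, Tendsto (fun m : ℕ => ((m : ℝ) : ℂ) • V (1 / (m : ℝ)) x) atTop (𝓝 x) := by
    intro x
    have h1 := hR.1 x
    have hseq : Tendsto (fun m : ℕ => 1 / (m : ℝ)) atTop (𝓝[>] 0) := by
      refine tendsto_nhdsWithin_iff.2 ⟨tendsto_one_div_atTop_nhds_zero_nat, ?_⟩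
      filter_upwards [eventually_gt_atTop 0] with m hm
      show (0 : ℝ) < 1 / m
      positivity
    have hexp : Tendsto (fun t : ℝ => ((Real.exp (-b * t) : ℝ) : ℂ)) (𝓝[>] 0) (𝓝 1) := by
      have : Continuous (fun t : ℝ => ((Real.exp (-b * t) : ℝ) : ℂ)) := by fun_prop
      have h2 := this.tendsto 0
      simp only [mul_zero, Real.exp_zero, Complex.ofReal_one] at h2
      exact h2.mono_left nhdsWithin_le_nhds
    have hexp' : Tendsto (fun t : ℝ => ((t : ℂ))⁻¹ * (((Real.exp (-b * t) : ℝ) : ℂ) - 1)) (𝓝[>] 0)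
        (𝓝 (-b : ℂ)) := by
      have h1 : HasDerivAt (fun t : ℝ => Real.exp (-b * t)) (-b) 0 := by
        have h1 : HasDerivAt (fun r : ℝ => -b * r) (-b) 0 := by
          simpa using (hasDerivAt_id (0 : ℝ)).const_mul (-b)
        simpa using h1.exp
      have h2 := (hasDerivAt_iff_tendsto_slope.1 h1).mono_left
        (nhdsWithin_mono 0 (fun s (hs : (0 : ℝ) < s) => (ne_of_gt hs : s ≠ 0)))
      have h3 := (Complex.continuous_ofReal.tendsto (-b)).comp h2
      have h4 : ((-b : ℝ) : ℂ) = -b := by push_cast; rfl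
      rw [h4] at h3
      refine h3.congr fun t => ?_
      simp only [Function.comp_apply, slope, vsub_eq_sub, smul_eq_mul, sub_zero, mul_zero,
        Real.exp_zero]
      push_cast; rfl
    have h2 : Tendsto (fun t : ℝ => ((t : ℂ))⁻¹ • V t x) (𝓝[>] 0) (𝓝 x) := by
      have h3 := ((hexp.smul h1).add (hexp'.smul_const (R x))).neg
      have h4 : -((1 : ℂ) • ((b : ℂ) • R x - x) + (-b : ℂ) • R x) = x := by module
      rw [h4] at h3
      refine h3.congr fun t => ?_
      rw [hVapp, hSapp]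
      module
    have h5 := h2.comp hseq
    refine h5.congr fun m => ?_
    simp only [Function.comp_apply]
    congr 1
    push_cast
    rw [one_div, inv_inv]
  -- the bound at integer times
  have hkey : ∀ l : ℕ, 2 ≤ l → ∀ x, ‖S l x‖ ≤ |C0| * M ^ 2 * ‖x‖ := by
    intro l hl x
    have hb : ∀ m : ℕ, 0 < m → ‖S l (((m : ℝ) : ℂ) • V (1 / (m : ℝ)) x)‖ ≤ |C0| * M ^ 2 * ‖x‖ := by
      intro m hm
      have hm' : (0 : ℝ) < m := Nat.cast_pos.2 hm
      set h : ℝ := 1 / (m : ℝ) with hh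
      have hh0 : 0 ≤ h := by positivity
      have hmh : (m : ℝ) * h = 1 := by rw [hh]; field_simp
      have h1 := conv_bound (fun i => S (i * h)) (V h) C0 M
        (fun i j y => by
          rw [← hSadd _ _ (by positivity) (by positivity)]
          congr 2; push_cast; ring)
        (fun i y => by
          rw [hVapp, hVapp, map_sub, hSR _ (by positivity)]
          congr 1
          rw [← hSadd _ _ hh0 (by positivity), ← hSadd _ _ (by positivity) hh0, add_comm])
        (l * m) m hm (Nat.mul_le_mul_right m hl)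
        (fun i hi y => hSM _ (by positivity) (by
          rw [← hmh]
          exact mul_le_mul_of_nonneg_right (by exact_mod_cast hi) hh0) y)
        (fun θ hθ y => by
          have h2 := hC0 ⟨(h, l * m + 1, θ), hh0, hθ⟩
          have h3 := (g ⟨(h, l * m + 1, θ), hh0, hθ⟩).le_opNorm y
          rw [hg] at h3
          exact h3.trans (mul_le_mul_of_nonneg_right h2 (norm_nonneg _))) x
      have h4 : ((l * m : ℕ) : ℝ) * h = l := by
        push_cast; rw [mul_assoc, hmh, mul_one]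
      simp only [h4] at h1
      rw [map_smul, norm_smul, Complex.norm_real, Real.norm_of_nonneg hm'.le, mul_comm]
      exact h1
    have h2 := ((S l).continuous.tendsto x).comp (hVlim x)
    refine le_of_tendsto h2.norm ?_
    filter_upwards [eventually_gt_atTop 0] with m hm
    exact hb m hm
  -- conclusion
  obtain ⟨M2, hM21, hM2⟩ := loc_bound hT 2
  refine growth_of_nat hT (A := max (|C0| * M ^ 2) (M2 * Real.exp (2 * |b|))) fun n => ?_
  rcases le_or_gt 2 n with hn | hn
  · refine ContinuousLinearMap.opNorm_le_bound _ (by positivity) fun x => ?_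
    have h1 := hkey n hn x
    rw [hSapp, norm_smul, Complex.norm_real, Real.norm_of_nonneg (Real.exp_pos _).le] at h1
    have h2 : ‖T n x‖ = Real.exp (b * n) * (Real.exp (-b * n) * ‖T n x‖) := by
      rw [← mul_assoc, ← Real.exp_add]; simp
    rw [h2]
    calc Real.exp (b * n) * (Real.exp (-b * n) * ‖T n x‖)
        ≤ Real.exp (b * n) * (|C0| * M ^ 2 * ‖x‖) :=
          mul_le_mul_of_nonneg_left h1 (Real.exp_pos _).le
      _ ≤ Real.exp (b * n) * (max (|C0| * M ^ 2) (M2 * Real.exp (2 * |b|)) * ‖x‖) := by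
          refine mul_le_mul_of_nonneg_left ?_ (Real.exp_pos _).le
          exact mul_le_mul_of_nonneg_right (le_max_left _ _) (norm_nonneg _)
      _ = _ := by ring
  · have hn2 : (n : ℝ) ≤ 2 := by exact_mod_cast hn.le
    have h1 : -(2 * |b|) ≤ b * n := by
      have : |b * n| ≤ |b| * 2 := by
        rw [abs_mul, abs_of_nonneg (a := (n : ℝ)) (Nat.cast_nonneg n)]
        exact mul_le_mul_of_nonneg_left hn2 (abs_nonneg _)
      linarith [neg_le_of_abs_le this]
    have h2 : 1 ≤ Real.exp (2 * |b|) * Real.exp (b * n) := by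
      rw [← Real.exp_add]
      exact Real.one_le_exp (by linarith)
    calc ‖T n‖ ≤ M2 := hM2 _ (Nat.cast_nonneg n) hn2
      _ ≤ M2 * (Real.exp (2 * |b|) * Real.exp (b * n)) := le_mul_of_one_le_right (by linarith) h2
      _ = (M2 * Real.exp (2 * |b|)) * Real.exp (b * n) := by ring
      _ ≤ _ := mul_le_mul_of_nonneg_right (le_max_right _ _) (Real.exp_pos _).le

end Pool.Agent.H848R3.PG
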