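import Pool.Agent.H848R3.PG.Main

/-!
# The resolvent set is open; rescaling; groups
-/

set_option autoImplicit false

open Filter Topology Set MeasureTheory
open scoped ComplexConjugate

namespace Pool.Agent.H848R3.PG

variable {E : Type*} [NormedAddCommGroup E] [NormedSpace ℂ E] [CompleteSpace E] {T : ℝ → E →L[ℂ] E}

theorem res_open {z : ℂ} {R : E →L[ℂ] E} (hR : IsRes T z R) {w : ℂ} (hw : ‖z - w‖ * ‖R‖ < 1) :
    ∃ S, IsRes T w S := by
  have hn : ‖(z - w) • R‖ < 1 := by rwa [norm_smul]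
  let u : (E →L[ℂ] E)ˣ := Units.oneSub ((z - w) • R) hn
  let U : E →L[ℂ] E := ((u⁻¹ : (E →L[ℂ] E)ˣ) : E →L[ℂ] E)
  have hu : ((u : (E →L[ℂ] E)ˣ) : E →L[ℂ] E) = 1 - (z - w) • R := rfl
  have h1 : ∀ x, U x - (z - w) • R (U x) = x := by
    intro x
    have h2 : ((u : (E →L[ℂ] E)ˣ) : E →L[ℂ] E) * U = 1 := Units.mul_inv u
    have h3 := congrArg (fun Q : E →L[ℂ] E => Q x) h2
    rw [hu] at h3
    exact h3
  have h1' : ∀ x, U (x - (z - w) • R x) = x := by
    intro x
    have h2 : U * ((u : (E →L[ℂ] E)ˣ) : E →L[ℂ] E) = 1 := Units.inv_mul u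
    have h3 := congrArg (fun Q : E →L[ℂ] E => Q x) h2
    rw [hu] at h3
    exact h3
  refine ⟨R.comp U, fun x => ?_, fun x y hxy => ?_⟩
  · have h4 := hR.1 (U x)
    have h5 : z • R (U x) - U x = w • R (U x) - x := by
      have h6 : U x = x + (z - w) • R (U x) := sub_eq_iff_eq_add.1 (h1 x)
      have h7 := congrArg (fun v => z • R (U x) - v) h6
      refine h7.trans ?_
      module
    rw [h5] at h4
    exact h4
  · have h4 := hR.2 x y hxy
    have h5 : w • x - y = (z • x - y) - (z - w) • R (z • x - y) := by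
      rw [h4]; module
    rw [ContinuousLinearMap.comp_apply, h5, h1', h4]

omit [CompleteSpace E] in
theorem rescale (hT : IsC0Semigroup T) {c : ℝ} (hc : 0 < c) : IsC0Semigroup fun t => T (c * t) where
  zero := by rw [mul_zero]; exact hT.zero
  add s t hs ht := by
    rw [mul_add]
    exact hT.add _ _ (by positivity) (by positivity)
  cont x := by
    refine (hT.cont x).comp (by fun_prop) fun t ht => ?_
    exact mul_nonneg hc.le ht

/-- one good time is enough -/
theorem growth_of_one (hT : IsC0Semigroup T) {t0 w : ℝ} (ht0 : 0 < t0)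
    (h : ‖T t0‖ ≤ Real.exp (w * t0)) : ∃ M : ℝ, ∀ t, 0 ≤ t → ‖T t‖ ≤ M * Real.exp (w * t) := by
  have hT' := rescale hT ht0
  have hn : ∀ n : ℕ, ‖T (t0 * n)‖ ≤ 1 * Real.exp ((w * t0) * n) := by
    intro n
    induction n with
    | zero =>
      simp only [CharP.cast_eq_zero, mul_zero, Real.exp_zero, mul_one, hT.zero]
      exact ContinuousLinearMap.norm_id_le
    | succ n ih =>
      have h3 : T (t0 * ((n + 1 : ℕ) : ℝ)) = (T t0).comp (T (t0 * n)) := by
        rw [← hT.add _ _ ht0.le (by positivity)]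
        congr 1; push_cast; ring
      rw [h3]
      calc ‖(T t0).comp (T (t0 * n))‖ ≤ ‖T t0‖ * ‖T (t0 * n)‖ := ContinuousLinearMap.opNorm_comp_le _ _
        _ ≤ Real.exp (w * t0) * (1 * Real.exp ((w * t0) * n)) :=
            mul_le_mul h ih (norm_nonneg _) (Real.exp_pos _).le
        _ = _ := by
            push_cast
            rw [mul_add, Real.exp_add, mul_one]; ring
  obtain ⟨M, hM⟩ := growth_of_nat hT' hn
  refine ⟨M, fun t ht => ?_⟩
  have h1 := hM (t / t0) (by positivity)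
  have h2 : t0 * (t / t0) = t := by field_simp
  simp only [h2] at h1
  rw [mul_assoc, h2] at h1
  exact h1

/-- If the semigroup has a largest lower growth rate: description of the real growth bound. -/
theorem log_tendsto (hT : IsC0Semigroup T) (hne : ∀ t, 0 ≤ t → T t ≠ 0) {s : ℝ}
    (hup : ∀ b, s < b → ∃ M : ℝ, ∀ t, 0 ≤ t → ‖T t‖ ≤ M * Real.exp (b * t))
    (hlo : ∀ b, b < s → ¬ ∃ M : ℝ, ∀ t, 0 ≤ t → ‖T t‖ ≤ M * Real.exp (b * t)) :
    Tendsto (fun t : ℝ => Real.log ‖T t‖ / t) atTop (𝓝 s) := by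
  have hpos : ∀ t, 0 ≤ t → 0 < ‖T t‖ := fun t ht => norm_pos_iff.2 (hne t ht)
  -- lower bound
  have h1 : ∀ t, 0 < t → s ≤ Real.log ‖T t‖ / t := by
    intro t ht
    by_contra hcon
    push Not at hcon
    obtain ⟨b, hb1, hb2⟩ := exists_between hcon
    refine hlo b hb2 (growth_of_one hT ht ?_)
    rw [div_lt_iff₀ ht] at hb1
    rw [← Real.exp_log (hpos t ht.le)]
    exact Real.exp_le_exp.2 hb1.le
  rw [tendsto_order]
  constructor
  · intro a ha
    filter_upwards [eventually_gt_atTop 0] with t ht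
    exact lt_of_lt_of_le ha (h1 t ht)
  · intro a ha
    obtain ⟨b, hb1, hb2⟩ := exists_between ha
    obtain ⟨M, hM⟩ := hup b hb1
    have hM0 : 0 < M := by
      have := lt_of_lt_of_le (hpos 0 le_rfl) (hM 0 le_rfl)
      simpa using this
    have h2 : Tendsto (fun t : ℝ => Real.log M / t) atTop (𝓝 0) :=
      tendsto_const_nhds.div_atTop tendsto_id
    filter_upwards [eventually_gt_atTop 0, (tendsto_order.1 h2).2 (a - b) (by linarith)] with t ht h3
    have h4 := Real.log_le_log (hpos t ht.le) (hM t ht.le)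
    rw [Real.log_mul hM0.ne' (Real.exp_pos _).ne', Real.log_exp] at h4
    rw [div_lt_iff₀ ht] at h3 ⊢
    linarith

end Pool.Agent.H848R3.PG
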