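import Pool.Agent.H848R3.PG.Laplace
import Pool.Agent.H848R3.PG.Conv

/-!
# Positive semigroups: positivity of the resolvent, boundedness
-/

set_option autoImplicit false

open Filter Topology Set MeasureTheory
open scoped ComplexConjugate

namespace Pool.Agent.H848R3.PG

section cone

variable {E : Type*} [NormedAddCommGroup E] [NormedSpace ℂ E]

/-- a closed, normal cone which generates the complex space `E` -/
structure OrdCone (C : Set E) : Prop where
  closed : IsClosed C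
  add : ∀ x ∈ C, ∀ y ∈ C, x + y ∈ C
  smul : ∀ r : ℝ, 0 ≤ r → ∀ x ∈ C, (r : ℂ) • x ∈ C
  normal : ∃ c : ℝ, 0 ≤ c ∧ ∀ x ∈ C, ∀ y, y - x ∈ C → ‖x‖ ≤ c * ‖y‖
  gen : ∀ z, ∃ a ∈ C, ∃ b ∈ C, ∃ c ∈ C, ∃ d ∈ C, z = (a - b) + Complex.I • (c - d)

variable {C : Set E} {T : ℝ → E →L[ℂ] E}

theorem OrdCone.zero (hC : OrdCone C) : (0 : E) ∈ C := by
  obtain ⟨a, ha, _⟩ := hC.gen 0
  simpa using hC.smul 0 le_rfl a ha

theorem OrdCone.convex (hC : OrdCone C) : Convex ℝ C := by
  intro x hx y hy a b ha hb _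
  have h1 := hC.smul a ha x hx
  have h2 := hC.smul b hb y hy
  rw [Complex.coe_smul] at h1 h2
  exact hC.add _ h1 _ h2

theorem OrdCone.sum_mem (hC : OrdCone C) {ι : Type*} (s : Finset ι) (f : ι → E)
    (h : ∀ i ∈ s, f i ∈ C) : ∑ i ∈ s, f i ∈ C :=
  Finset.sum_induction f (· ∈ C) (fun a b ha hb => hC.add a ha b hb) hC.zero h

theorem int_mem [CompleteSpace E] (hC : OrdCone C) {f : ℝ → E} {a b : ℝ} (hab : a ≤ b)
    (hf : ContinuousOn f (Icc a b)) (hm : ∀ r ∈ Icc a b, f r ∈ C) : ∫ r in a..b, f r ∈ C := by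
  rcases eq_or_lt_of_le hab with rfl | hab'
  · simpa using hC.zero
  rw [intervalIntegral.integral_of_le hab]
  have hi : IntegrableOn f (Ioc a b) := (hf.integrableOn_Icc).mono_set Ioc_subset_Icc_self
  have h1 : (⨍ r in Ioc a b, f r) ∈ C := by
    refine Convex.set_average_mem hC.convex hC.closed ?_ ?_ ?_ hi
    · simp [hab']
    · simp
    · filter_upwards [ae_restrict_mem measurableSet_Ioc] with r hr
      exact hm r (Ioc_subset_Icc_self hr)
  rw [setAverage_eq] at h1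
  have hv : volume.real (Ioc a b) = b - a := by simp [hab]
  rw [hv] at h1
  have h2 := hC.smul (b - a) (by linarith) _ h1
  rw [Complex.coe_smul, smul_smul, mul_inv_cancel₀ (by linarith), one_smul] at h2
  exact h2

/-- positive operators -/
def Pos (C : Set E) (Q : E →L[ℂ] E) : Prop := ∀ x ∈ C, Q x ∈ C

theorem cexp_real (b r : ℝ) : Complex.exp (-(b : ℂ) * r) = ((Real.exp (-b * r) : ℝ) : ℂ) := by
  push_cast; rfl

theorem V_mem [CompleteSpace E] (hC : OrdCone C) (hT : IsC0Semigroup T)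
    (hpos : ∀ t, 0 ≤ t → Pos C (T t)) {b : ℝ} {R : E →L[ℂ] E} (hR : IsRes T b R) {h : ℝ}
    (hh : 0 ≤ h) {x : E} (hx : x ∈ C) :
    R x - ((Real.exp (-b * h) : ℝ) : ℂ) • T h (R x) ∈ C := by
  have h1 := ftc_res hT hR x hh
  rw [cexp_real] at h1
  rw [← h1]
  refine int_mem hC hh ?_ fun r hr => ?_
  · have hcexp : Continuous (fun r : ℝ => Complex.exp (-(b : ℂ) * r)) := by fun_prop
    exact (hcexp.continuousOn.smul (hT.cont x)).mono fun t ht => ht.1
  · rw [cexp_real]
    exact hC.smul _ (Real.exp_pos _).le _ (hpos r hr.1 x hx)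

theorem res_pos_large [CompleteSpace E] (hC : OrdCone C) (hT : IsC0Semigroup T)
    (hpos : ∀ t, 0 ≤ t → Pos C (T t)) {M ω : ℝ} (hM : ∀ t, 0 ≤ t → ‖T t‖ ≤ M * Real.exp (ω * t))
    {b : ℝ} (hb : ω < b) {R : E →L[ℂ] E} (hR : IsRes T b R) : Pos C R := by
  intro x hx
  have h1 : Tendsto (fun L : ℝ => R x - Complex.exp (-(b : ℂ) * L) • T L (R x)) atTop
      (𝓝 (R x - 0)) :=
    tendsto_const_nhds.sub (tendsto_zero hM (z := (b : ℂ)) (by simpa using hb) (R x))
  rw [sub_zero] at h1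
  refine hC.closed.mem_of_tendsto h1 ?_
  filter_upwards [eventually_ge_atTop 0] with L hL
  rw [cexp_real]
  exact V_mem hC hT hpos hR hL hx

theorem res_unique {z : ℂ} {R S : E →L[ℂ] E} (hR : IsRes T z R) (hS : IsRes T z S) : R = S := by
  ext x
  have h := res_identity hR hS x
  rw [sub_self, zero_smul, add_zero] at h
  exact h.symm

theorem pos_step (hC : OrdCone C) {l m : ℝ} {R S : E →L[ℂ] E} (hR : IsRes T l R)
    (hS : IsRes T m S) (hlm : m ≤ l) (hsmall : (l - m) * ‖R‖ ≤ 1 / 2) (hpos : Pos C R) :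
    Pos C S := by
  intro x hx
  have h1 : S x = R x + ((l - m : ℝ) : ℂ) • R (S x) := by
    have := res_identity hS hR x
    rw [this]
    push_cast
    module
  let Q : E →L[ℂ] E := ((l - m : ℝ) : ℂ) • R
  have hQ : ∀ y, Q y = ((l - m : ℝ) : ℂ) • R y := fun y => rfl
  have hQn : ∀ y, ‖Q y‖ ≤ 1 / 2 * ‖y‖ := by
    intro y
    rw [hQ, norm_smul, Complex.norm_real, Real.norm_of_nonneg (sub_nonneg.2 hlm)]
    calc (l - m) * ‖R y‖ ≤ (l - m) * (‖R‖ * ‖y‖) :=
          mul_le_mul_of_nonneg_left (R.le_opNorm y) (sub_nonneg.2 hlm)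
      _ = ((l - m) * ‖R‖) * ‖y‖ := by ring
      _ ≤ _ := mul_le_mul_of_nonneg_right hsmall (norm_nonneg _)
  let p : ℕ → E := fun n => Nat.rec 0 (fun _ v => R x + Q v) n
  have hp0 : p 0 = 0 := rfl
  have hps : ∀ n, p (n + 1) = R x + Q (p n) := fun n => rfl
  have hpC : ∀ n, p n ∈ C := by
    intro n
    induction n with
    | zero => rw [hp0]; exact hC.zero
    | succ n ih =>
      rw [hps]
      refine hC.add _ (hpos x hx) _ ?_
      rw [hQ]
      exact hC.smul _ (sub_nonneg.2 hlm) _ (hpos _ ih)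
  have hpn : ∀ n, ‖S x - p n‖ ≤ (1 / 2) ^ n * ‖S x‖ := by
    intro n
    induction n with
    | zero => rw [hp0]; simp
    | succ n ih =>
      have : S x - p (n + 1) = Q (S x - p n) := by
        rw [hps, map_sub]
        nth_rewrite 1 [h1]
        rw [← hQ]
        abel
      rw [this]
      refine (hQn _).trans ?_
      calc 1 / 2 * ‖S x - p n‖ ≤ 1 / 2 * ((1 / 2) ^ n * ‖S x‖) :=
            mul_le_mul_of_nonneg_left ih (by norm_num)
        _ = _ := by ring
  have hlim : Tendsto p atTop (𝓝 (S x)) := by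
    rw [tendsto_iff_norm_sub_tendsto_zero]
    have h2 : Tendsto (fun n : ℕ => (1 / 2 : ℝ) ^ n * ‖S x‖) atTop (𝓝 (0 * ‖S x‖)) :=
      (tendsto_pow_atTop_nhds_zero_of_lt_one (by norm_num) (by norm_num)).mul_const _
    rw [zero_mul] at h2
    refine squeeze_zero (fun n => norm_nonneg _) (fun n => ?_) h2
    rw [norm_sub_rev]
    exact hpn n
  exact hC.closed.mem_of_tendsto hlim (Eventually.of_forall hpC)

theorem pos_down (hC : OrdCone C) {b l : ℝ} (hbl : b ≤ l)
    (hres : ∀ m : ℝ, b ≤ m → ∃ R, IsRes T m R) (hl : ∀ R, IsRes T l R → Pos C R) :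
    ∀ R, IsRes T b R → Pos C R := by
  choose! F hF using hres
  -- local boundedness
  have hloc : ∀ s t : ℝ, b ≤ s → b ≤ t → |t - s| * ‖F s‖ ≤ 1 / 2 → ‖F t‖ ≤ 2 * ‖F s‖ := by
    intro s t hs ht hst
    have h1 : ‖F t‖ ≤ ‖F s‖ + 1 / 2 * ‖F t‖ := by
      refine ContinuousLinearMap.opNorm_le_bound _ (by positivity) fun x => ?_
      have h2 := res_identity (hF t ht) (hF s hs) x
      have h3 : F t x = F s x - ((t - s : ℝ) : ℂ) • F s (F t x) := by
        rw [h2]; push_cast; module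
      rw [h3]
      calc ‖F s x - ((t - s : ℝ) : ℂ) • F s (F t x)‖
          ≤ ‖F s x‖ + ‖((t - s : ℝ) : ℂ) • F s (F t x)‖ := norm_sub_le _ _
        _ ≤ ‖F s‖ * ‖x‖ + |t - s| * (‖F s‖ * (‖F t‖ * ‖x‖)) := by
            rw [norm_smul, Complex.norm_real, Real.norm_eq_abs]
            refine add_le_add ((F s).le_opNorm x) (mul_le_mul_of_nonneg_left ?_ (abs_nonneg _))
            exact ((F s).le_opNorm _).trans (mul_le_mul_of_nonneg_left ((F t).le_opNorm x)
              (norm_nonneg _))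
        _ = ‖F s‖ * ‖x‖ + (|t - s| * ‖F s‖) * (‖F t‖ * ‖x‖) := by ring
        _ ≤ ‖F s‖ * ‖x‖ + (1 / 2) * (‖F t‖ * ‖x‖) := by
            refine add_le_add le_rfl (mul_le_mul_of_nonneg_right hst (by positivity))
        _ = _ := by ring
    linarith
  have hbd : ∃ K : ℝ, ∀ t ∈ Icc b l, ‖F t‖ ≤ K := by
    refine isCompact_Icc.induction_on (p := fun s => ∃ K : ℝ, ∀ t ∈ s, b ≤ t → ‖F t‖ ≤ K)
      ?_ ?_ ?_ ?_ |>.imp fun K hK t ht => hK t ht ht.1
    · exact ⟨0, fun t ht => absurd ht (Set.notMem_empty t)⟩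
    · rintro s t hst ⟨K, hK⟩
      exact ⟨K, fun u hu hbu => hK u (hst hu) hbu⟩
    · rintro s t ⟨K, hK⟩ ⟨K', hK'⟩
      refine ⟨max K K', fun u hu hbu => ?_⟩
      rcases hu with hu | hu
      · exact (hK u hu hbu).trans (le_max_left _ _)
      · exact (hK' u hu hbu).trans (le_max_right _ _)
    · intro s hs
      refine ⟨{t | |t - s| * ‖F s‖ < 1 / 2}, ?_, 2 * ‖F s‖, fun t ht hbt =>
        hloc s t hs.1 hbt (le_of_lt ht)⟩
      refine mem_nhdsWithin_of_mem_nhds ?_
      have hcont : Continuous (fun t : ℝ => |t - s| * ‖F s‖) := by fun_prop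
      refine hcont.continuousAt.preimage_mem_nhds (Iio_mem_nhds ?_)
      simp
  obtain ⟨K, hK⟩ := hbd
  obtain ⟨N, hN⟩ := exists_nat_gt (2 * ((l - b) * |K|))
  have hN0 : 0 < (N : ℝ) := lt_of_le_of_lt (by have := sub_nonneg.2 hbl; positivity) hN
  set δ : ℝ := (l - b) / N with hδ
  have hδ0 : 0 ≤ δ := div_nonneg (sub_nonneg.2 hbl) hN0.le
  have hNδ : N * δ = l - b := by rw [hδ]; field_simp
  have hδK : δ * |K| ≤ 1 / 2 := by
    rw [hδ, div_mul_eq_mul_div, div_le_iff₀ hN0]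
    linarith
  have hind : ∀ k : ℕ, k ≤ N → Pos C (F (l - k * δ)) := by
    intro k
    induction k with
    | zero =>
      intro _
      refine hl _ ?_
      have := hF (l - (0 : ℕ) * δ) (by simpa using hbl)
      convert this using 2
      simp
    | succ k ih =>
      intro hk
      have hk' : ((k : ℝ) + 1) ≤ N := by exact_mod_cast hk
      have h1 : b ≤ l - (k + 1 : ℕ) * δ := by
        push_cast
        have := mul_le_mul_of_nonneg_right hk' hδ0
        linarith
      have h2 : b ≤ l - k * δ := by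
        push_cast at h1
        nlinarith
      have h3 : l - k * δ ∈ Icc b l := ⟨h2, by
        have : 0 ≤ (k : ℝ) * δ := by positivity
        linarith⟩
      refine pos_step hC (hF _ h2) (hF _ h1) ?_ ?_ (ih (by omega))
      · push_cast; nlinarith
      · have h4 : (l - k * δ) - (l - (k + 1 : ℕ) * δ) = δ := by push_cast; ring
        rw [h4]
        refine le_trans (mul_le_mul_of_nonneg_left ?_ hδ0) hδK
        exact (hK _ h3).trans (le_abs_self K)
  intro R hR
  have h5 := hind N le_rfl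
  have h6 : l - N * δ = b := by rw [hNδ]; ring
  rw [h6] at h5
  rw [res_unique hR (hF b le_rfl)]
  exact h5

end cone

end Pool.Agent.H848R3.PG
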